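import Pool.Agent.TH886.PrimeScales
import Pool.Agent.H932R4.MO.Final

/-!
# Few bad scales around almost all primes of every interval of length `x ^ θ`

A dyadic scale `D = 2 ^ j`, `log n ≤ D`, is good at `n` if the primes have a constant density
`λ / log n`, `c₁ ≤ λ ≤ c₂`, on `[n - D, n + D]` up to an error `δ D / log n`, for all subintervals
simultaneously. For every `θ > 0` and `η > 0` there are `c₁, c₂ > 0` such that for every `δ > 0` all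
but at most `η Y / log X` of the PRIMES of every interval `(X, X + Y]` with `X ^ θ ≤ Y ≤ X` have at
most `K` bad scales below `Y`. If `(X, X + Y]` always contains `≫ Y / log X` primes, then these are
all but a proportion `η` of the primes of `(X, X + Y]`.
-/

set_option autoImplicit false

open Filter Topology

namespace Pool.Agent.Results.MP_31d0eb_nt.FewBadScalesAtPrimes

/-- `(X, X + Y]` contains at least `c Y / log X` primes whenever `X ^ θ ≤ Y ≤ X` and `X` is large -/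
def ShortIntervals (θ : ℝ) : Prop := ∃ c : ℝ, 0 < c ∧ ∃ X₀ : ℕ, 2 ≤ X₀ ∧
  ∀ X Y : ℕ, X₀ ≤ X → (X : ℝ) ^ θ ≤ Y → Y ≤ X →
    c * Y / Real.log X ≤ (((Finset.Ioc X (X + Y)).filter Nat.Prime).card : ℝ)

/-- up to `δ` the primes have a constant density `lam / log n` with `c₁ ≤ lam ≤ c₂` on
`[n - D, n + D]` -/
def ConstantDensity (c₁ c₂ δ : ℝ) (n D : ℕ) : Prop :=
  ∃ lam : ℝ, c₁ ≤ lam ∧ lam ≤ c₂ ∧ ∀ u v : ℕ, n ≤ u + D → u ≤ v → v ≤ n + D →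
    |(((Finset.Ioc u v).filter Nat.Prime).card : ℝ) - lam * ((v : ℝ) - u) / Real.log n| ≤
      δ * D / Real.log n

open Classical in
/-- the number of `j` with `log n ≤ 2 ^ j ≤ Y` for which the primes do not have a constant density
on `[n - 2 ^ j, n + 2 ^ j]` -/
noncomputable def badScales (c₁ c₂ δ : ℝ) (Y n : ℕ) : ℕ :=
  ((Finset.range (Nat.log 2 Y + 1)).filter (fun j => Real.log n ≤ (2 : ℝ) ^ j ∧
    ¬ ConstantDensity c₁ c₂ δ n (2 ^ j))).card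

theorem result :
    (∀ θ : ℝ, 0 < θ → θ ≤ 1 → ∀ η : ℝ, 0 < η → ∃ c₁ c₂ : ℝ, 0 < c₁ ∧
      ∀ δ : ℝ, 0 < δ → ∃ K : ℕ, ∀ᶠ X : ℕ in atTop, ∀ Y : ℕ, (X : ℝ) ^ θ ≤ Y → Y ≤ X →
        (((Finset.Ioc X (X + Y)).filter
          (fun p => p.Prime ∧ K < badScales c₁ c₂ δ Y p)).card : ℝ) ≤ η * Y / Real.log X) ∧
    (∃ θ : ℝ, 0 < θ ∧ θ < 1 ∧ ShortIntervals θ) ∧
    (∀ θ : ℝ, 0 < θ → θ ≤ 1 → ShortIntervals θ → ∀ η : ℝ, 0 < η → ∃ c₁ c₂ : ℝ, 0 < c₁ ∧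
      ∀ δ : ℝ, 0 < δ → ∃ K : ℕ, ∀ᶠ X : ℕ in atTop, ∀ Y : ℕ, (X : ℝ) ^ θ ≤ Y → Y ≤ X →
        (((Finset.Ioc X (X + Y)).filter
          (fun p => p.Prime ∧ K < badScales c₁ c₂ δ Y p)).card : ℝ) ≤
            η * (((Finset.Ioc X (X + Y)).filter Nat.Prime).card : ℝ)) := by
  have hmain : ∀ θ : ℝ, 0 < θ → θ ≤ 1 → ∀ η : ℝ, 0 < η → ∃ c₁ c₂ : ℝ, 0 < c₁ ∧
      ∀ δ : ℝ, 0 < δ → ∃ K : ℕ, ∀ᶠ X : ℕ in atTop, ∀ Y : ℕ, (X : ℝ) ^ θ ≤ Y → Y ≤ X →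
        (((Finset.Ioc X (X + Y)).filter
          (fun p => p.Prime ∧ K < badScales c₁ c₂ δ Y p)).card : ℝ) ≤ η * Y / Real.log X := by
    intro θ h0 h1 η hη
    obtain ⟨c₁, c₂, hc₁, h⟩ := Pool.Agent.TH886.PS.main θ h0 h1 η hη
    refine ⟨c₁, c₂, hc₁, ?_⟩
    intro δ hδ
    obtain ⟨K, hK⟩ := h δ hδ
    refine ⟨K, ?_⟩
    filter_upwards [hK] with X hX
    intro Y hY hYX
    have h3 := hX Y hY hYX
    convert h3 using 4
    exact Iff.rfl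
  refine ⟨hmain, Pool.Agent.H932R4.MO.exists_short, ?_⟩
  intro θ h0 h1 hS η hη
  obtain ⟨cS, hcS, X₀, hX₀, hS⟩ := hS
  obtain ⟨c₁, c₂, hc₁, h⟩ := hmain θ h0 h1 (η * cS) (by positivity)
  refine ⟨c₁, c₂, hc₁, ?_⟩
  intro δ hδ
  obtain ⟨K, hK⟩ := h δ hδ
  refine ⟨K, ?_⟩
  filter_upwards [hK, eventually_ge_atTop X₀] with X hX hXX
  intro Y hY hYX
  refine (hX Y hY hYX).trans ?_
  have h5 := hS X Y hXX hY hYX
  calc η * cS * Y / Real.log X = η * (cS * Y / Real.log X) := by ring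
    _ ≤ _ := by gcongr

end Pool.Agent.Results.MP_31d0eb_nt.FewBadScalesAtPrimes
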