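import Mathlib
import Pool.Agent.TH110.Zig.PrimesRet

/-!
# The local density of the primes rarely fluctuates

`density x H = π(x, H) log x / H`, where `π(x, H)` is the number of primes in `(x, x + H]`. As `H` grows
from `0` to `x` the density of the primes after a typical `x` may become large, then small, then
large again, and so on. For `0 < a < b` the theorem bounds the proportion of the `x ≤ X` for which it
is `k + 1` times at least `b` and in between `k` times at most `a`, at any lengths
`0 < H₀ < H₁ < … < H_{2 k} ≤ x`: it is at most `(1 + δ) min (1, 1 / b) (a / b + δ) ^ k`, uniformly in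
`k`. So the number of returns from below `a` to above `b` has exponential tails with ratio `a / b`,
whatever the number of scales between `0` and `x`, and its mean value is bounded.
-/

set_option autoImplicit false

open MeasureTheory Set Filter Topology

namespace Pool.Agent.Results.MP_31d0eb_nt.FluctuationBound

/-- the number of primes `≤ x` -/
noncomputable def primesUpTo (x : ℝ) : ℝ := (Nat.primeCounting ⌊x⌋₊ : ℝ)

/-- the density `π(x, H) log x / H` of the primes in `(x, x + H]` relative to `1 / log x` -/
noncomputable def density (x H : ℝ) : ℝ :=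
  (primesUpTo (x + H) - primesUpTo x) * Real.log x / H

/-- there are lengths `0 < H 0 < H 1 < … < H (2 k) ≤ x` such that the density of the primes in
`(x, x + H i]` is at least `b` for even `i` and at most `a` for odd `i` -/
def Returns (a b : ℝ) (k : ℕ) (x : ℝ) : Prop :=
  ∃ H : ℕ → ℝ, 0 < H 0 ∧ (∀ i < 2 * k, H i < H (i + 1)) ∧ H (2 * k) ≤ x ∧
    (∀ i ≤ k, b ≤ density x (H (2 * i))) ∧ ∀ i < k, density x (H (2 * i + 1)) ≤ a

/-- **Few fluctuations of the local density of the primes.** For all reals `0 < a < b` and `δ > 0`, for
all large `X` and all `k`, the density of the primes after `x` returns `k` times from `≤ a` to `≥ b`,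
as above, only for a proportion at most `(1 + δ) min (1, 1 / b) (a / b + δ) ^ k` of all `x ≤ X`. -/
theorem result (a b δ : ℝ) (ha : 0 < a) (hab : a < b) (hδ : 0 < δ) :
    ∀ᶠ X : ℝ in atTop, ∀ k : ℕ, volume.real {x | 0 ≤ x ∧ x ≤ X ∧ Returns a b k x} ≤
      (1 + δ) * min 1 (1 / b) * (a / b + δ) ^ k * X := by
  have h := TH110.Zig.reg_qp.returns TH110.Zig.slow_log ha hab hδ
  rw [TH110.Zig.cr_qp] at h
  exact h

end Pool.Agent.Results.MP_31d0eb_nt.FluctuationBound
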