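import Pool.Agent.TH886.DensPow

/-!
# The local densities of primes at almost all primes have harmonic mean at least `1`

`density p H` is `π(p, H) log p / H`. For all `ε, δ` in `(0, 1]` there is `κ > 0` such that for all
large `N` there is an exponent `a` with `κ ≤ a` and `a + κ ≤ ε` such that

* all but at most `δ π(N)` primes `p < N` have a local density: `density p H` differs by at most `δ`
  from `density p (p ^ a)` for all real `H` in `[p ^ a, p ^ (a + κ)]` at once;
* the harmonic mean over the primes `p < N` of these local densities (truncated at `δ`) is at least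
  `1 / (1 + δ)`; in particular at most `(1 + δ) μ π(N)` of them are smaller than `μ`, for every
  `μ ≥ δ`.
-/

set_option autoImplicit false

open Filter Topology

namespace Pool.Agent.Results.MP_31d0eb_nt.HarmonicMeanOfDensities

/-- `π(p, H) log p / H`, where `π(p, H)` is the number of primes in `(p, p + H]` -/
noncomputable def density (p : ℕ) (H : ℝ) : ℝ :=
  (((Finset.Ioc p ⌊(p : ℝ) + H⌋₊).filter Nat.Prime).card : ℝ) * Real.log p / H

lemma density_eq (p : ℕ) (H : ℝ) : density p H = Pool.Agent.TH886.PD.psi p H := by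
  unfold density Pool.Agent.TH886.PD.psi Pool.Agent.H357R2.SI.piS
  rw [Nat.floor_natCast]

open Classical in
theorem result : ∀ ε δ : ℝ, 0 < ε → ε ≤ 1 → 0 < δ → δ ≤ 1 →
    ∃ κ : ℝ, 0 < κ ∧ ∀ᶠ N : ℕ in atTop, ∃ a : ℝ, κ ≤ a ∧ a + κ ≤ ε ∧
      (((Finset.range N).filter (fun p : ℕ => p.Prime ∧ ¬ ∀ H : ℝ, (p : ℝ) ^ a ≤ H →
        H ≤ (p : ℝ) ^ (a + κ) → |density p H - density p ((p : ℝ) ^ a)| ≤ δ)).card : ℝ) ≤
          δ * Nat.primeCounting N ∧
      ∑ p ∈ (Finset.range N).filter Nat.Prime, 1 / max (density p ((p : ℝ) ^ a)) δ ≤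
        (1 + δ) * Nat.primeCounting N := by
  intro ε δ h1 h2 h3 h4
  simp only [density_eq]
  exact Pool.Agent.TH886.PD.pow_windows ε δ h1 h2 h3 h4

end Pool.Agent.Results.MP_31d0eb_nt.HarmonicMeanOfDensities
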