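import Mathlib
import Pool.Agent.TH110.Zig.Primes

/-!
# The exact law of the zigzags of the primes around their mean density, at all scales at once

Let `N` be large and `L = log N`. Start at a point `x` of `[0, N]` and fix `b > 1 > a > 0`. Let `s` be
the first point after `x` at which the number of primes in `(x, s]` reaches `b (s - x) / L` (the
primes are then `b` times as dense as on average), and let `t` be the first point from `s` on at
which the number of primes in `(x, t]` is no longer above the line that goes on from there with
slope `a / L`. This is one zigzag, from `x` to `t`; the lengths `s - x` and `t - s` may have any size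
between `0` and `N`. Then start again from `t`, with new slopes.

The theorem: for every finite list of slopes `(b₁, a₁), …, (b_k, a_k)` the starting points `x` whose
`k` zigzags all exist and end in a given set `A ⊆ [0, N]` have measure `∏ (a_i / b_i) |A| + o(N)`,
uniformly in `A`. In particular (`A = [0, N]`) all `k` zigzags exist for a proportion of exactly
`∏ (a_i / b_i)` of all `x`, as if the zigzags were independent, with probability `1 / b_i` for the
ascent and `a_i` for the descent; and given that they exist, the end point is distributed like a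
uniform point of `[0, N]`, so that the primes seen from it are statistically the same as the primes
seen from a random point.
-/

set_option autoImplicit false

open MeasureTheory Set Filter Topology

namespace Pool.Agent.Results.MP_31d0eb_nt.ZigzagLaw

/-- the number of primes `≤ x` -/
noncomputable def primesUpTo (x : ℝ) : ℝ := (Nat.primeCounting ⌊x⌋₊ : ℝ)

/-- `(x, t)` is a zigzag with slopes `b`, `a`: `s` is the first point after `x` with at least
`b (s - x)` primes in `(x, s]`, and `t` is the first point from `s` on with at most
`b (s - x) + a (t - s)` primes in `(x, t]`. -/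
def Zigzag (a b x t : ℝ) : Prop := ∃ s : ℝ,
  IsLeast {s | x < s ∧ b * (s - x) ≤ primesUpTo s - primesUpTo x} s ∧
  IsLeast {t | s ≤ t ∧ primesUpTo t - primesUpTo x ≤ b * (s - x) + a * (t - s)} t

/-- `Path L [(b₁, a₁), …, (b_k, a_k)] x t`: the zigzag with slopes `b₁ / L`, `a₁ / L` from `x`, the
zigzag with slopes `b₂ / L`, `a₂ / L` from its end point, and so on, all exist, and the last one ends
at `t`. -/
def Path (L : ℝ) : List (ℝ × ℝ) → ℝ → ℝ → Prop
  | [], x, t => x = t
  | c :: cs, x, t => ∃ u, Zigzag (c.2 / L) (c.1 / L) x u ∧ Path L cs u t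

theorem path_iff (L : ℝ) (cs : List (ℝ × ℝ)) (x t : ℝ) :
    Path L cs x t ↔ TH110.Zig.Path (TH110.Zig.cr TH110.Zig.qp) L cs x t := by
  induction cs generalizing x with
  | nil => rfl
  | cons c cs ih =>
    rw [TH110.Zig.cr_qp] at ih ⊢
    simp only [Path, TH110.Zig.Path, ih]
    rfl

/-- **The law of the zigzags of the primes.** For slopes `b_i > 1 > a_i > 0` and every `ε > 0`, for all
large `N` and every measurable `A ⊆ [0, N]` the points `x ≥ 0` from which the zigzags with slopes
`b_i / log N`, `a_i / log N` all exist and end in `A` (necessarily `x ≤ N`) have measure at most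
`∏ (a_i / b_i) |A|` and at least `∏ (a_i / b_i) |A| - ε N`. -/
theorem result (cs : List (ℝ × ℝ)) (hcs : ∀ c ∈ cs, 1 < c.1 ∧ 0 < c.2 ∧ c.2 < 1) (ε : ℝ)
    (hε : 0 < ε) : ∀ᶠ N : ℝ in atTop, ∀ A : Set ℝ, A ⊆ Icc 0 N → MeasurableSet A →
      volume.real {x | 0 ≤ x ∧ ∃ t ∈ A, Path (Real.log N) cs x t} ≤
        (cs.map fun c => c.2 / c.1).prod * volume.real A ∧
      (cs.map fun c => c.2 / c.1).prod * volume.real A - ε * N ≤
        volume.real {x | 0 ≤ x ∧ ∃ t ∈ A, Path (Real.log N) cs x t} := by
  filter_upwards [TH110.Zig.reg_qp.law cs hcs ε hε] with N hN A hAN hA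
  have e : {x | 0 ≤ x ∧ ∃ t ∈ A, Path (Real.log N) cs x t} =
      TH110.Zig.DomL TH110.Zig.qp (Real.log N) cs A := by
    ext x
    simp only [TH110.Zig.DomL, path_iff, mem_ofPred_eq]
  rw [e]
  exact (hN A hAN hA).2.2

end Pool.Agent.Results.MP_31d0eb_nt.ZigzagLaw
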